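import Pool.Agent.Q54.EM.StmA

/-!
# Project EM (helper54), job VA1: the generator sum has mean zero
-/

set_option autoImplicit false

namespace Pool.Agent.Q299.EM

open Finset Pool.Agent.Q54.EM

theorem ee_zero (hE : S_EEL) {ι : Type} [Fintype ι] (p x : ι → ℝ) (n : ℕ) :
    EE p x n (fun _ => 0) = 0 := by
  have h := (hE ι p x n).2.2.1 0 (fun _ => 0)
  simpa using h

theorem va1 : S_ONE → S_EEL → S_VA1 := by
  intro hO hE ι _ p x f k hk
  obtain ⟨n, rfl⟩ : ∃ n, k = n + 1 := ⟨k - 1, by omega⟩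
  have h1 := hO ι p x n (fun a s => if s + x a < ((n + 1 : ℕ) : ℝ) then
    ∑ z, p z * (f z - f a) * (if x z < ((n + 1 : ℕ) : ℝ) - s then 1 else 0) else 0)
  have e1 : (fun v : Fin (n + 1) → ι => if ∑ j, x (v j) < ((n + 1 : ℕ) : ℝ) then
      ∑ i, ∑ z, p z * (f z - f (v i)) *
        (if x z < ((n + 1 : ℕ) : ℝ) - (∑ j, x (v j) - x (v i)) then (1 : ℝ) else 0) else 0) =
      fun v => ∑ i, (if (∑ j, x (v j) - x (v i)) + x (v i) < ((n + 1 : ℕ) : ℝ) then
        ∑ z, p z * (f z - f (v i)) *
          (if x z < ((n + 1 : ℕ) : ℝ) - (∑ j, x (v j) - x (v i)) then (1 : ℝ) else 0) else 0) := by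
    funext v
    split_ifs with h
    · refine sum_congr rfl fun i _ => ?_
      rw [if_pos (by rw [sub_add_cancel]; exact h)]
    · symm
      refine sum_eq_zero fun i _ => ?_
      rw [if_neg (by rw [sub_add_cancel]; exact h)]
  rw [e1]
  refine h1.trans ?_
  have e2 : (fun s : ℝ => ∑ a, p a * (if s + x a < ((n + 1 : ℕ) : ℝ) then
      ∑ z, p z * (f z - f a) * (if x z < ((n + 1 : ℕ) : ℝ) - s then (1 : ℝ) else 0) else 0)) =
      fun _ => 0 := by
    funext s
    set b : ι → ℝ := fun a => if x a < ((n + 1 : ℕ) : ℝ) - s then 1 else 0 with hb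
    have e3 : ∀ a, p a * (if s + x a < ((n + 1 : ℕ) : ℝ) then
        ∑ z, p z * (f z - f a) * (if x z < ((n + 1 : ℕ) : ℝ) - s then (1 : ℝ) else 0) else 0) =
        ∑ z, p a * p z * (f z - f a) * (b a * b z) := by
      intro a
      have hiff : s + x a < ((n + 1 : ℕ) : ℝ) ↔ x a < ((n + 1 : ℕ) : ℝ) - s := by
        constructor <;> intro h <;> linarith
      by_cases h : x a < ((n + 1 : ℕ) : ℝ) - s
      · rw [if_pos (hiff.2 h), mul_sum]
        refine sum_congr rfl fun z _ => ?_
        simp only [hb]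
        rw [if_pos h]
        ring
      · rw [if_neg (fun h' => h (hiff.1 h')), mul_zero]
        symm
        refine sum_eq_zero fun z _ => ?_
        simp only [hb]
        rw [if_neg h]
        ring
    rw [sum_congr rfl fun a _ => e3 a]
    have e4 : ∑ a, ∑ z, p a * p z * (f z - f a) * (b a * b z) =
        -∑ a, ∑ z, p a * p z * (f z - f a) * (b a * b z) := by
      conv_lhs => rw [sum_comm]
      rw [← sum_neg_distrib]
      refine sum_congr rfl fun a _ => ?_
      rw [← sum_neg_distrib]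
      refine sum_congr rfl fun z _ => ?_
      ring
    linarith
  rw [e2, ee_zero hE, mul_zero]

end Pool.Agent.Q299.EM
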