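import Pool.Agent.Q54.EM.StmA

/-!
# Project EM (helper54), job VA2: the covariance of the generator sum
-/

set_option autoImplicit false

namespace Pool.Agent.Q299.EM

open Finset Pool.Agent.Q54.EM

theorem va2 : S_ONE → S_EEL → S_VA2 := by
  intro hO hE ι _ p x f k hk
  obtain ⟨n, rfl⟩ : ∃ n, k = n + 1 := ⟨k - 1, by omega⟩
  set K : ℝ := ((n + 1 : ℕ) : ℝ) with hK
  have h1 := hO ι p x n (fun a s => if s + x a < K then (K - (s + x a)) *
    ∑ z, p z * (f z - f a) * (if x z < K - s then 1 else 0) else 0)
  have e1 : (fun v : Fin (n + 1) → ι => if ∑ j, x (v j) < K then (K - ∑ j, x (v j)) *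
      ∑ i, ∑ z, p z * (f z - f (v i)) *
        (if x z < K - (∑ j, x (v j) - x (v i)) then (1 : ℝ) else 0) else 0) =
      fun v => ∑ i, (if (∑ j, x (v j) - x (v i)) + x (v i) < K then
        (K - ((∑ j, x (v j) - x (v i)) + x (v i))) *
        ∑ z, p z * (f z - f (v i)) *
          (if x z < K - (∑ j, x (v j) - x (v i)) then (1 : ℝ) else 0) else 0) := by
    funext v
    split_ifs with h
    · rw [mul_sum]
      refine sum_congr rfl fun i _ => ?_
      rw [if_pos (by rw [sub_add_cancel]; exact h), sub_add_cancel]
    · symm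
      refine sum_eq_zero fun i _ => ?_
      rw [if_neg (by rw [sub_add_cancel]; exact h)]
  rw [e1]
  refine h1.trans ?_
  have e2 : (fun s : ℝ => ∑ a, p a * (if s + x a < K then (K - (s + x a)) *
      ∑ z, p z * (f z - f a) * (if x z < K - s then (1 : ℝ) else 0) else 0)) =
      fun s => ∑ a, ∑ z, (1 / 2 * (p a * p z * ((x z - x a) * (f z - f a)))) *
        (if s < K - max (x a) (x z) then 1 else 0) := by
    funext s
    set b : ι → ℝ := fun a => if x a < K - s then 1 else 0 with hb
    have e3 : ∀ a, p a * (if s + x a < K then (K - (s + x a)) *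
        ∑ z, p z * (f z - f a) * (if x z < K - s then (1 : ℝ) else 0) else 0) =
        ∑ z, p a * p z * (f z - f a) * (b a * b z) * (K - (s + x a)) := by
      intro a
      have hiff : s + x a < K ↔ x a < K - s := by
        constructor <;> intro h <;> linarith
      by_cases h : x a < K - s
      · rw [if_pos (hiff.2 h), mul_sum, mul_sum]
        refine sum_congr rfl fun z _ => ?_
        simp only [hb]
        rw [if_pos h]
        ring
      · rw [if_neg (fun h' => h (hiff.1 h')), mul_zero]
        symm
        refine sum_eq_zero fun z _ => ?_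
        simp only [hb]
        rw [if_neg h]
        ring
    rw [sum_congr rfl fun a _ => e3 a]
    have e4 : ∑ a, ∑ z, p a * p z * (f z - f a) * (b a * b z) * (K - (s + x a)) =
        ∑ a, ∑ z, p a * p z * (f a - f z) * (b a * b z) * (K - (s + x z)) := by
      rw [sum_comm]
      refine sum_congr rfl fun a _ => sum_congr rfl fun z _ => ?_
      ring
    have e5 : ∀ a z, (if s < K - max (x a) (x z) then (1 : ℝ) else 0) = b a * b z := by
      intro a z
      simp only [hb]
      by_cases ha : x a < K - s
      · by_cases hz : x z < K - s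
        · rw [if_pos ha, if_pos hz, mul_one, if_pos]
          have := max_lt ha hz
          linarith
        · rw [if_pos ha, if_neg hz, mul_zero, if_neg]
          have := le_max_right (x a) (x z)
          intro h
          exact hz (by linarith)
      · rw [if_neg ha, zero_mul, if_neg]
        have := le_max_left (x a) (x z)
        intro h
        exact ha (by linarith)
    have e6 : ∑ a, ∑ z, (1 / 2 * (p a * p z * ((x z - x a) * (f z - f a)))) *
        (if s < K - max (x a) (x z) then (1 : ℝ) else 0) =
        1 / 2 * (∑ a, ∑ z, p a * p z * (f z - f a) * (b a * b z) * (K - (s + x a)) +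
          ∑ a, ∑ z, p a * p z * (f a - f z) * (b a * b z) * (K - (s + x z))) := by
      rw [← sum_add_distrib, mul_sum]
      refine sum_congr rfl fun a _ => ?_
      rw [← sum_add_distrib, mul_sum]
      refine sum_congr rfl fun z _ => ?_
      rw [e5]
      ring
    rw [e6, ← e4]
    ring
  rw [e2]
  obtain ⟨l1, l2, l3, l4, l5, l6⟩ := hE ι p x n
  have e7 : EE p x n (fun s => ∑ a, ∑ z, (1 / 2 * (p a * p z * ((x z - x a) * (f z - f a)))) *
      (if s < K - max (x a) (x z) then (1 : ℝ) else 0)) =
      ∑ a, ∑ z, (1 / 2 * (p a * p z * ((x z - x a) * (f z - f a)))) *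
        PR p x n (K - max (x a) (x z)) := by
    rw [l6 ι univ (fun a s => ∑ z, (1 / 2 * (p a * p z * ((x z - x a) * (f z - f a)))) *
      (if s < K - max (x a) (x z) then (1 : ℝ) else 0))]
    refine sum_congr rfl fun a _ => ?_
    rw [l6 ι univ (fun z s => (1 / 2 * (p a * p z * ((x z - x a) * (f z - f a)))) *
      (if s < K - max (x a) (x z) then (1 : ℝ) else 0))]
    refine sum_congr rfl fun z _ => ?_
    rw [l3]
    rfl
  rw [e7, CC, Nat.add_sub_cancel]
  rw [← hK]
  have e8 : ((n : ℝ) + 1) = K := by
    rw [hK]
    push_cast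
    rfl
  rw [e8, ← neg_mul, mul_sum, mul_sum]
  refine sum_congr rfl fun a _ => ?_
  rw [mul_sum, mul_sum]
  refine sum_congr rfl fun z _ => ?_
  ring

end Pool.Agent.Q299.EM
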