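import Pool.Agent.Q54.EM.StmA

/-!
# Project EM (helper54), job VB: the variance bound
-/

set_option autoImplicit false

namespace Pool.Agent.Q299.EM

open Finset Pool.Agent.Q54.EM

theorem vb : S_TUP → S_VA1 → S_VA2 → S_VA3 → S_EEL → S_VB := by
  intro hT h1 h2 h3 _ ι _ p x f k hk hL hP hf
  have a1 := h1 ι p x f k (by omega)
  have a2 := h2 ι p x f k (by omega)
  have a3 := h3 ι p x f k hk hL hf
  set N : (Fin k → ι) → ℝ := fun v =>
    ∑ i, ∑ z, p z * (f z - f (v i)) * (if x z < k - (∑ j, x (v j) - x (v i)) then 1 else 0) with hN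
  set w : (Fin k → ι) → ℝ := fun v => ∏ i, p (v i) with hw
  set A : (Fin k → ι) → ℝ := fun v => if ∑ j, x (v j) < k then 1 else 0 with hA
  set D : (Fin k → ι) → ℝ := fun v => k - ∑ j, x (v j) with hD
  have hw0 : ∀ v, 0 ≤ w v := fun v => prod_nonneg fun i _ => (hL.pos _).le
  have hA0 : ∀ v, 0 ≤ A v := fun v => by
    simp only [hA]
    split_ifs <;> norm_num
  have b1 : ∑ v, w v * A v * N v = 0 := by
    rw [← a1, TE]
    refine sum_congr rfl fun v _ => ?_
    simp only [hA, hw]
    split_ifs <;> simp [hN]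
  have b2 : ∑ v, w v * A v * (D v * N v) = - CC k p x f := by
    rw [← a2, TE]
    refine sum_congr rfl fun v _ => ?_
    simp only [hA, hw]
    split_ifs
    · simp [hN, hD]
    · simp
  have b3 : ∑ v, w v * A v * N v ^ 2 ≤ PP k p x f + CR k p x f := by
    refine le_trans (le_of_eq ?_) a3
    rw [TE]
    refine sum_congr rfl fun v _ => ?_
    simp only [hA, hw]
    split_ifs
    · simp [hN]
    · simp
  have c1 : PR p x k k = ∑ v, w v * A v := by
    rw [PR, hT]
    rfl
  have c2 : GP p x k k = ∑ v, w v * A v * D v := by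
    rw [GP, hT, TE]
    refine sum_congr rfl fun v _ => ?_
    simp only [hA, hw, hD]
    split_ifs with h
    · rw [max_eq_left (by linarith), mul_one]
    · rw [max_eq_right (by linarith)]
      ring
  have c3 : G2 p x k k = ∑ v, w v * A v * D v ^ 2 := by
    rw [G2, hT, TE]
    refine sum_congr rfl fun v _ => ?_
    simp only [hA, hw, hD]
    split_ifs with h
    · rw [max_eq_left (by linarith), mul_one]
    · rw [max_eq_right (by linarith), mul_zero]
      simp
  set P0 := PR p x k k with hP0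
  set G1 := GP p x k k with hG1
  set h : ℝ := G1 / P0 with hh
  have d1 : ∑ v, w v * A v * (D v - h) ^ 2 = G2 p x k k - G1 ^ 2 / P0 := by
    have e1 : ∑ v, w v * A v * (D v - h) ^ 2 = ∑ v, w v * A v * D v ^ 2 -
        2 * h * ∑ v, w v * A v * D v + h ^ 2 * ∑ v, w v * A v := by
      rw [mul_sum, mul_sum, ← sum_sub_distrib, ← sum_add_distrib]
      refine sum_congr rfl fun v _ => ?_
      ring
    rw [e1, ← c1, ← c2, ← c3, hh]
    field_simp
    ring
  have d2 : ∑ v, w v * A v * ((D v - h) * N v) = - CC k p x f := by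
    rw [← b2]
    have e1 : ∑ v, w v * A v * ((D v - h) * N v) = ∑ v, w v * A v * (D v * N v) -
        h * ∑ v, w v * A v * N v := by
      rw [mul_sum, ← sum_sub_distrib]
      refine sum_congr rfl fun v _ => ?_
      ring
    rw [e1, b1, mul_zero, sub_zero]
  have d3 : (∑ v, w v * A v * ((D v - h) * N v)) ^ 2 ≤
      (∑ v, w v * A v * (D v - h) ^ 2) * ∑ v, w v * A v * N v ^ 2 := by
    refine Finset.sum_sq_le_sum_mul_sum_of_sq_le_mul _ (fun v _ => ?_) (fun v _ => ?_) (fun v _ => ?_)
    · exact mul_nonneg (mul_nonneg (hw0 v) (hA0 v)) (sq_nonneg _)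
    · exact mul_nonneg (mul_nonneg (hw0 v) (hA0 v)) (sq_nonneg _)
    · exact le_of_eq (by ring)
  have d4 : 0 ≤ ∑ v, w v * A v * (D v - h) ^ 2 :=
    sum_nonneg fun v _ => mul_nonneg (mul_nonneg (hw0 v) (hA0 v)) (sq_nonneg _)
  rw [d2, neg_sq] at d3
  rw [← d1]
  exact d3.trans (mul_le_mul_of_nonneg_left b3 d4)

end Pool.Agent.Q299.EM
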